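import Mathlib
import Pool.Agent.H76.IADetP3
import Pool.Agent.H76.IADetNe
import Pool.Agent.H78.IADetStr4
import Pool.Agent.H78.IADetStr3

set_option autoImplicit false

/-!
# Determination of `C̄(n) ∩ T(n)` for all `n ≥ 3`

`IA n`, `C n`, `T n` (in `Pool.Agent.H76.IADetBase`) are the groups of the problem, `IsK i j φ`,
`IsT i j l φ` (in `Pool.Agent.H76.IADetHom`) say that `φ` is `K_{ij}`, `K_{ijl}`. Products of
automorphisms are compositions.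
-/

namespace Pool.Agent.Results.MP_0edd48_al.Determination

open FreeGroup (of)
open scoped commutatorElement
open Pool.Agent.H76.IADet
open Pool.Agent.H42.IADetF (O ω)

/-- The group `IA(F(n))`. -/
def IAg (n : ℕ) : Type := IA n

instance (n : ℕ) : Group (IAg n) := (IA n).toGroup

/-- `T(n)` as a subgroup of `IA(F(n))`. -/
def Tg (n : ℕ) : Subgroup (IAg n) := T n

/-- The normal closure `C̄(n)` of `C(n)` in `IA(F(n))`. -/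
def Cbar (n : ℕ) : Subgroup (IAg n) := Subgroup.normalClosure (C n : Set (IA n))

/-- Three distinct indices. -/
def Dist {n : ℕ} (i j l : Fin n) : Prop := i ≠ j ∧ i ≠ l ∧ j ≠ l

/-- `K i j l` is the automorphism `K_{ijl}` for all distinct `i, j, l`. -/
def IsFam {n : ℕ} (K : Fin n → Fin n → Fin n → IAg n) : Prop :=
  ∀ i j l : Fin n, Dist i j l → IsT i j l (K i j l)

/-- The values of `Φ_1, …, Φ_n` on the generators of `IA(F(n))`: `Φ_c(K_{ij}) = 1` and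
`Φ_c(K_{ijl}) = ([l = c] E_{ji} - [j = c] E_{li}, 0)`. -/
def PhiValues {n : ℕ} (Φ : Fin n → IAg n →* E n) : Prop :=
  (∀ (c i j : Fin n) (φ : IAg n), i ≠ j → IsK i j φ → Φ c φ = 1) ∧
  ∀ (c i j l : Fin n) (φ : IAg n), Dist i j l → IsT i j l φ → Φ c φ = kv c i j l

/-- The values of `Ψ_1, Ψ_2, Ψ_3` (`n = 3`) on the generators, with values in the permutations of
a ring `R`, for `t` in `R`: `Ψ_c(K_{ij}) = 1`, `Ψ_c(K_{cjl}) = 1`, `Ψ_c(K_{ijc})` is `z ↦ t z` if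
`j < i` and `z ↦ 1 + t (z - 1)` if `i < j`. -/
def AffValues {R : Type} [Ring R] (t : R) (Ψ : Fin 3 → IAg 3 →* Equiv.Perm R) : Prop :=
  (∀ (c i j : Fin 3) (φ : IAg 3), i ≠ j → IsK i j φ → Ψ c φ = 1) ∧
  (∀ (c j l : Fin 3) (φ : IAg 3), IsT c j l φ → Ψ c φ = 1) ∧
  (∀ (i j c : Fin 3) (φ : IAg 3), j < i → j ≠ c → i ≠ c → IsT i j c φ → ∀ z, Ψ c φ z = t * z) ∧
  ∀ (i j c : Fin 3) (φ : IAg 3), i < j → j ≠ c → i ≠ c → IsT i j c φ →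
    ∀ z, Ψ c φ z = 1 + t * (z - 1)

/-- The test for `n ≥ 4`: `C̄(n) ∩ T(n)` is the set of the `φ` in `T(n)` killed by `Φ_1, …, Φ_n`. -/
def Test (n : ℕ) : Prop :=
  ∃ Φ : Fin n → IAg n →* E n, PhiValues Φ ∧ ∀ φ ∈ Tg n, φ ∈ Cbar n ↔ ∀ c, Φ c φ = 1

/-- The test for `n = 3`: `C̄(3) ∩ T(3)` is the set of the `φ` in `T(3)` killed by all `Φ_c`,
`Ψ_c` (`R = ℤ`, `t = -1`) and `Θ_c` (`R = ℤ[ω]`, `t = ω`). -/
def Test3 : Prop :=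
  ∃ (Φ : Fin 3 → IAg 3 →* E 3) (Ψ : Fin 3 → IAg 3 →* Equiv.Perm ℤ)
    (Θ : Fin 3 → IAg 3 →* Equiv.Perm O), PhiValues Φ ∧ AffValues (-1) Ψ ∧ AffValues ω Θ ∧
    ∀ φ ∈ Tg 3, φ ∈ Cbar 3 ↔ ∀ c, Φ c φ = 1 ∧ Ψ c φ = 1 ∧ Θ c φ = 1

/-- The relators of two elements. -/
def RelPair {G : Type} [Group G] (P Q : G) : Set G :=
  {r | (∃ m : ℕ, 1 ≤ m ∧ m ≤ 4 ∧ r = ⁅P * Q, Q ^ m * (P * Q) * (Q ^ m)⁻¹⁆) ∨
    r = ⁅P, Q⁆ * (Q * ⁅P, Q⁆ * Q⁻¹) *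
      ((Q ^ 3 * ⁅P, Q⁆ * (Q ^ 3)⁻¹) * (Q ^ 4 * ⁅P, Q⁆ * (Q ^ 4)⁻¹))⁻¹}

/-- The relators for `n = 3`. -/
def Rel3 {G : Type} [Group G] (a b c : G) : Set G :=
  {r | r ∈ RelPair a b ∨ r ∈ RelPair a c ∨ r ∈ RelPair b c ∨
    r = ⁅a, ⁅b, c⁆⁆ ∨ r = ⁅b, ⁅a, c⁆⁆ ∨ r = ⁅c, ⁅a, b⁆⁆}

/-- The relators for `n ≥ 4`. -/
def Rel4 {n : ℕ} {G : Type} [Group G] (K : Fin n → Fin n → Fin n → G) : Set G :=
  {r | ∃ i j l p s t : Fin n, Dist i j l ∧ Dist p s t ∧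
    (p = i ∨ ∃ e, (e = p ∨ e = s ∨ e = t) ∧ e ≠ i ∧ e ≠ j ∧ e ≠ l) ∧ r = ⁅K i j l, K p s t⁆} ∪
  {r | ∃ i j l a b c : Fin n, Dist i j l ∧ Dist a b c ∧ r = ⁅K i j l, ⁅K a b c, K b a c⁆⁆} ∪
  {r | ∃ a b c e : Fin n, Dist a b c ∧ e ≠ a ∧ e ≠ b ∧ e ≠ c ∧
    r = ⁅K e a c, K a e c⁆ * ⁅K b e c, K e b c⁆ * ⁅K b a c, K a b c⁆⁻¹}

/-- `C̄(n) ∩ T(n)` is the normal closure of `R` in `T(n)`. -/
def NormallyGeneratedBy (n : ℕ) (R : Set (IAg n)) : Prop :=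
  R ⊆ Tg n ∧ Subgroup.map (Tg n).subtype (Subgroup.normalClosure {t : Tg n | (t : IAg n) ∈ R}) =
    Cbar n ⊓ Tg n

/-- `π` is a surjective homomorphism from `T(n)` with kernel `C̄(n) ∩ T(n)`, so that the group `Q`
is `T(n)/(C̄(n) ∩ T(n))`. -/
def IsQuot (n : ℕ) {Q : Type} [Group Q] (π : Tg n →* Q) : Prop :=
  Function.Surjective π ∧ ∀ t : Tg n, π t = 1 ↔ (t : IAg n) ∈ Cbar n

/-- Structure of `Q = T(n)/(C̄(n) ∩ T(n))` for `n ≥ 4`. -/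
def Structure4 (n : ℕ) : Prop :=
  ∃ (Q : Type) (_ : Group Q) (π : Tg n →* Q), IsQuot n π ∧
    commutator Q ≤ Subgroup.center Q ∧
    Nonempty (Abelianization Q ≃* Multiplicative (Fin (n * (n - 1).choose 2) → ℤ)) ∧
    Nonempty (commutator Q ≃* Multiplicative (Fin (n * (n - 2)) → ℤ))

/-- Structure of `Q = T(3)/(C̄(3) ∩ T(3))`. -/
def Structure3 : Prop :=
  ∃ (Q : Type) (_ : Group Q) (π : Tg 3 →* Q), IsQuot 3 π ∧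
    Nonempty (Abelianization Q ≃* Multiplicative (Fin 3 → ℤ)) ∧
    Nonempty (commutator Q ≃* Multiplicative (Fin 12 → ℤ)) ∧
    ¬ Group.IsNilpotent Q

/-! ### proofs -/

theorem isT_iff {n : ℕ} {i j l : Fin n} (hij : i ≠ j) (hil : i ≠ l) (x : IA n) :
    IsT i j l x ↔ x = KT i j l := by
  constructor
  · intro h
    have h0 := KT_isT (n := n) hij hil
    apply Subtype.ext
    apply aut_ext
    intro m
    by_cases hm : m = i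
    · subst hm; rw [h.1, h0.1]
    · rw [h.2 m hm, h0.2 m hm]
  · rintro rfl
    exact KT_isT hij hil

theorem KT_mem {n : ℕ} {i j l : Fin n} (hij : i ≠ j) (hil : i ≠ l) (hjl : j ≠ l) :
    KT i j l ∈ T n := Pool.Agent.H78.IADetPres4.K_mem_T hij hil hjl

theorem isFam_KT {n : ℕ} : IsFam (n := n) KT := fun _ _ _ h => KT_isT h.1 h.2.1

theorem comm_mem_T {n : ℕ} {x y : IAg n} (hx : x ∈ Tg n) (hy : y ∈ Tg n) : ⁅x, y⁆ ∈ Tg n := by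
  rw [commutatorElement_def]
  exact mul_mem (mul_mem (mul_mem hx hy) (inv_mem hx)) (inv_mem hy)

theorem mem4 {n : ℕ} {i j l : Fin n} (h : Dist i j l) : (KT i j l : IAg n) ∈ Tg n :=
  KT_mem h.1 h.2.1 h.2.2

theorem rel4_eq (n : ℕ) : Rel4 (n := n) (G := IAg n) KT = Pool.Agent.H78.IADetPres4.Rel4 n := by
  ext r
  constructor
  · rintro ((⟨i, j, l, p, s, t, h1, h2, he, h⟩ | ⟨i, j, l, a, b, c, h1, h2, h⟩) |
      ⟨a, b, c, e, h1, h2, h3, h4, h⟩)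
    · exact Or.inl (Or.inl ⟨i, j, l, p, s, t, h1.1, h1.2.1, h1.2.2, h2.1, h2.2.1, h2.2.2, he, h⟩)
    · exact Or.inl (Or.inr ⟨i, j, l, a, b, c, h1.1, h1.2.1, h1.2.2, h2.1, h2.2.1, h2.2.2, h⟩)
    · exact Or.inr ⟨a, b, c, e, h1.1, h1.2.1.symm, h1.2.2.symm, h2, h3, h4, h⟩
  · rintro ((⟨i, j, l, p, s, t, h1, h2, h3, h4, h5, h6, he, h⟩ |
      ⟨i, j, l, a, b, c, h1, h2, h3, h4, h5, h6, h⟩) |
      ⟨a, b, c, e, h1, h2, h3, h4, h5, h6, h⟩)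
    · exact Or.inl (Or.inl ⟨i, j, l, p, s, t, ⟨h1, h2, h3⟩, ⟨h4, h5, h6⟩, he, h⟩)
    · exact Or.inl (Or.inr ⟨i, j, l, a, b, c, ⟨h1, h2, h3⟩, ⟨h4, h5, h6⟩, h⟩)
    · exact Or.inr ⟨a, b, c, e, ⟨h1, h2.symm, h3.symm⟩, h4, h5, h6, h⟩

theorem rel4_T (n : ℕ) : Rel4 (n := n) (G := IAg n) KT ⊆ Tg n := by
  rintro r ((⟨i, j, l, p, s, t, h1, h2, he, rfl⟩ | ⟨i, j, l, a, b, c, h1, h2, rfl⟩) |
      ⟨a, b, c, e, h1, h2, h3, h4, rfl⟩)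
  · exact comm_mem_T (mem4 h1) (mem4 h2)
  · exact comm_mem_T (mem4 h1) (comm_mem_T (mem4 h2) (mem4 ⟨h2.1.symm, h2.2.2, h2.2.1⟩))
  · exact mul_mem (mul_mem
      (comm_mem_T (mem4 ⟨h2, h4, h1.2.1⟩) (mem4 ⟨h2.symm, h1.2.1, h4⟩))
      (comm_mem_T (mem4 ⟨h3.symm, h1.2.2, h4⟩) (mem4 ⟨h3, h4, h1.2.2⟩)))
      (inv_mem (comm_mem_T (mem4 ⟨h1.1.symm, h1.2.2, h1.2.1⟩) (mem4 h1)))

theorem phi_values {n : ℕ} : PhiValues (n := n) Phi :=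
  ⟨fun c _ _ φ hij h => Phi_K c φ hij h.1 h.2,
   fun c _ _ _ φ hd h => Phi_T c φ hd.1 hd.2.1 hd.2.2 h.1 h.2⟩

theorem psi_values : AffValues (-1 : ℤ) Psi :=
  ⟨fun c _ _ _ hij h => Psi_K c hij h, fun _ _ _ _ h => Psi_T0 h,
   fun _ _ _ _ h1 h2 h3 h z => by rw [neg_one_mul]; exact Psi_T1 h1 h2 h3 h z,
   fun _ _ _ _ h1 h2 h3 h z => by
    have e : (1 : ℤ) + -1 * (z - 1) = 2 - z := by ring
    rw [e]; exact Psi_T2 h1 h2 h3 h z⟩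

theorem theta_values : AffValues ω Theta :=
  ⟨fun c _ _ _ hij h => Theta_K c hij h, fun _ _ _ _ h => Theta_T0 h,
   fun _ _ _ _ h1 h2 h3 h z => Theta_T1 h1 h2 h3 h z,
   fun _ _ _ _ h1 h2 h3 h z => Theta_T2 h1 h2 h3 h z⟩

theorem test4 {n : ℕ} (hn : 4 ≤ n) : Test n := ⟨Phi, phi_values, fun _ hφ => det4 hn hφ⟩

theorem gen4 {n : ℕ} (hn : 4 ≤ n) :
    ∃ K : Fin n → Fin n → Fin n → IAg n, IsFam K ∧ NormallyGeneratedBy n (Rel4 K) := by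
  refine ⟨KT, isFam_KT, rel4_T n, ?_⟩
  rw [rel4_eq]
  exact Pool.Agent.H78.IADetPres4.pres4 hn

instance (n : ℕ) : (Cbar n).Normal := Subgroup.normalClosure_normal (s := (C n : Set (IA n)))

theorem isQuot_mk (n : ℕ) : IsQuot n (QuotientGroup.mk' ((Cbar n).subgroupOf (Tg n))) :=
  ⟨QuotientGroup.mk'_surjective _, fun t => by
    rw [QuotientGroup.mk'_apply, QuotientGroup.eq_one_iff, Subgroup.mem_subgroupOf]⟩

theorem structure4 {n : ℕ} (hn : 4 ≤ n) : Structure4 n :=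
  ⟨_, _, _, isQuot_mk n, Pool.Agent.H78.IADetStr4.structure4' hn⟩

theorem rel3_eq : Rel3 (G := IAg 3) (KT 0 1 2) (KT 1 2 0) (KT 2 0 1) = RelP := by
  ext r
  constructor
  · rintro (h | h | h | h)
    · exact mem_RelP.2 (Or.inl ⟨_, _, Or.inl ⟨rfl, rfl⟩, h⟩)
    · exact mem_RelP.2 (Or.inl ⟨_, _, Or.inr (Or.inl ⟨rfl, rfl⟩), h⟩)
    · exact mem_RelP.2 (Or.inl ⟨_, _, Or.inr (Or.inr ⟨rfl, rfl⟩), h⟩)
    · exact mem_RelP.2 (Or.inr h)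
  · intro h
    rcases mem_RelP.1 h with ⟨P, Q, hPQ, h⟩ | h
    · rcases hPQ with ⟨rfl, rfl⟩ | ⟨rfl, rfl⟩ | ⟨rfl, rfl⟩
      · exact Or.inl h
      · exact Or.inr (Or.inl h)
      · exact Or.inr (Or.inr (Or.inl h))
    · exact Or.inr (Or.inr (Or.inr h))

theorem relPair_T {P Q : IAg 3} (mP : P ∈ Tg 3) (mQ : Q ∈ Tg 3) : RelPair P Q ⊆ Tg 3 := by
  have mc : ∀ m : ℕ, ∀ x ∈ Tg 3, Q ^ m * x * (Q ^ m)⁻¹ ∈ Tg 3 := fun m x hx =>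
    mul_mem (mul_mem (pow_mem mQ m) hx) (inv_mem (pow_mem mQ m))
  rintro r (⟨m, -, -, rfl⟩ | rfl)
  · exact comm_mem_T (mul_mem mP mQ) (mc m _ (mul_mem mP mQ))
  · have h0 := comm_mem_T mP mQ
    exact mul_mem (mul_mem h0 (mul_mem (mul_mem mQ h0) (inv_mem mQ)))
      (inv_mem (mul_mem (mc 3 _ h0) (mc 4 _ h0)))

theorem rel3_T : Rel3 (G := IAg 3) (KT 0 1 2) (KT 1 2 0) (KT 2 0 1) ⊆ Tg 3 := by
  have ma : (KT 0 1 2 : IAg 3) ∈ Tg 3 := mem4 (by unfold Dist; decide)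
  have mb : (KT 1 2 0 : IAg 3) ∈ Tg 3 := mem4 (by unfold Dist; decide)
  have mc : (KT 2 0 1 : IAg 3) ∈ Tg 3 := mem4 (by unfold Dist; decide)
  rintro r (h | h | h | rfl | rfl | rfl)
  · exact relPair_T ma mb h
  · exact relPair_T ma mc h
  · exact relPair_T mb mc h
  · exact comm_mem_T ma (comm_mem_T mb mc)
  · exact comm_mem_T mb (comm_mem_T ma mc)
  · exact comm_mem_T mc (comm_mem_T ma mb)

theorem test3 : Test3 := ⟨Phi, Psi, Theta, phi_values, psi_values, theta_values,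
  fun _ hφ => det3 hφ⟩

theorem gen3 : ∃ K : Fin 3 → Fin 3 → Fin 3 → IAg 3, IsFam K ∧
    NormallyGeneratedBy 3 (Rel3 (K 0 1 2) (K 1 2 0) (K 2 0 1)) := by
  refine ⟨KT, isFam_KT, rel3_T, ?_⟩
  rw [rel3_eq]
  exact presP

theorem structure3 : Structure3 := ⟨_, _, _, isQuot_mk 3, Pool.Agent.H78.IADetStr3.structure3⟩

/-- **Result**: determination of `C̄(n) ∩ T(n)` for all `n ≥ 3`. -/
theorem result :
    (∀ n : ℕ, 3 ≤ n → Cbar n ⊓ Tg n ≠ ⊥) ∧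
    (∀ n : ℕ, 4 ≤ n → Test n ∧
      (∃ K : Fin n → Fin n → Fin n → IAg n, IsFam K ∧ NormallyGeneratedBy n (Rel4 K)) ∧
      Structure4 n) ∧
    Test3 ∧
    (∃ K : Fin 3 → Fin 3 → Fin 3 → IAg 3, IsFam K ∧
      NormallyGeneratedBy 3 (Rel3 (K 0 1 2) (K 1 2 0) (K 2 0 1))) ∧
    Structure3 :=
  ⟨Pool.Agent.H76.IADetNe.inter_ne_bot, fun _ hn => ⟨test4 hn, gen4 hn, structure4 hn⟩,
    test3, gen3, structure3⟩

end Pool.Agent.Results.MP_0edd48_al.Determination
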