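import Mathlib
import Pool.Agent.H76.IAmain

set_option autoImplicit false

namespace Pool.Agent.Results.MP_0edd48_al.IntersectionNontrivial

open FreeGroup (of)

/-- The natural map `Aut F(n) → Aut (F(n)/F(n)')`. -/
def abMap (n : ℕ) :
    MulAut (FreeGroup (Fin n)) →* MulAut (Abelianization (FreeGroup (Fin n))) where
  toFun φ := MulEquiv.abelianizationCongr φ
  map_one' := by
    apply MulEquiv.ext
    intro x
    obtain ⟨x, rfl⟩ := QuotientGroup.mk_surjective x
    rfl
  map_mul' φ ψ := by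
    apply MulEquiv.ext
    intro x
    obtain ⟨x, rfl⟩ := QuotientGroup.mk_surjective x
    rfl

/-- `IA(F(n))`, the kernel of the natural map. -/
def IA (n : ℕ) : Subgroup (MulAut (FreeGroup (Fin n))) := (abMap n).ker

/-- `C(n)`: the subgroup of `IA(F(n))` generated by all `K_{ij}`. -/
def C (n : ℕ) : Subgroup (IA n) :=
  Subgroup.closure {φ : IA n | ∃ i j : Fin n, i ≠ j ∧
    φ.1 (of i) = of j * of i * (of j)⁻¹ ∧ ∀ m, m ≠ i → φ.1 (of m) = of m}

/-- `T(n)`: the subgroup of `IA(F(n))` generated by all `K_{ijk}`. -/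
def T (n : ℕ) : Subgroup (IA n) :=
  Subgroup.closure {φ : IA n | ∃ i j k : Fin n, i ≠ j ∧ j < k ∧ k ≠ i ∧
    φ.1 (of i) = of i * (of j * of k * (of j)⁻¹ * (of k)⁻¹) ∧ ∀ m, m ≠ i → φ.1 (of m) = of m}

theorem mem_IA {n : ℕ} {φ : MulAut (FreeGroup (Fin n))}
    (h : ∀ m, Abelianization.of (φ (of m)) = Abelianization.of (of m)) : φ ∈ IA n := by
  change abMap n φ = 1
  apply MulEquiv.ext
  intro x
  obtain ⟨x, rfl⟩ := QuotientGroup.mk_surjective x
  have : (Abelianization.of.comp (φ : FreeGroup (Fin n) →* FreeGroup (Fin n))) = Abelianization.of := by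
    apply FreeGroup.ext_hom
    intro m
    exact h m
  exact DFunLike.congr_fun this x

open Pool.Agent.H76.IAbase Pool.Agent.H76.IAmain in
/-- **Result**: for every `n ≥ 3` the intersection of the normal closure of `C(n)` in `IA(F(n))`
with `T(n)` is nontrivial. -/
theorem result : ∀ n : ℕ, 3 ≤ n →
    Subgroup.normalClosure (C n : Set (IA n)) ⊓ T n ≠ ⊥ := by
  intro n hn
  -- three generators
  let a : Fin n := ⟨0, by omega⟩
  let b : Fin n := ⟨1, by omega⟩
  let c : Fin n := ⟨2, by omega⟩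
  have hab : b ≠ a := by simp [a, b, Fin.ext_iff]
  have hca : c ≠ a := by simp [a, c, Fin.ext_iff]
  have hcb : c ≠ b := by simp [b, c, Fin.ext_iff]
  have Ea := fun g h => E_a a b g h
  have Eb := fun g h => E_b hab g h
  have Ec := fun g h => E_m hca hcb g h
  -- the automorphisms
  let A : MulAut (FreeGroup (Fin n)) := mk hab (of a * (of b * of c * (of b)⁻¹ * (of c)⁻¹)) (of b)
    (of a * (of b * of c * (of b)⁻¹ * (of c)⁻¹)⁻¹) (of b)
    (by simp only [map_mul, map_inv, Ea, Eb, Ec]; group) (by simp only [Eb])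
    (by simp only [map_mul, map_inv, Ea, Eb, Ec]; group) (by simp only [Eb])
  let B : MulAut (FreeGroup (Fin n)) := mk hab (of a) (of b * (of a * of c * (of a)⁻¹ * (of c)⁻¹))
    (of a) (of b * (of a * of c * (of a)⁻¹ * (of c)⁻¹)⁻¹)
    (by simp only [Ea]) (by simp only [map_mul, map_inv, Ea, Eb, Ec]; group)
    (by simp only [Ea]) (by simp only [map_mul, map_inv, Ea, Eb, Ec]; group)
  let K01 : MulAut (FreeGroup (Fin n)) := mk hab (of b * of a * (of b)⁻¹) (of b)
    ((of b)⁻¹ * of a * of b) (of b)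
    (by simp only [map_mul, map_inv, Ea, Eb, Ec]; group) (by simp only [Eb])
    (by simp only [map_mul, map_inv, Ea, Eb, Ec]; group) (by simp only [Eb])
  let K10 : MulAut (FreeGroup (Fin n)) := mk hab (of a) (of a * of b * (of a)⁻¹)
    (of a) ((of a)⁻¹ * of b * of a)
    (by simp only [Ea]) (by simp only [map_mul, map_inv, Ea, Eb, Ec]; group)
    (by simp only [Ea]) (by simp only [map_mul, map_inv, Ea, Eb, Ec]; group)
  let K02 : MulAut (FreeGroup (Fin n)) := mk hab (of c * of a * (of c)⁻¹) (of b)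
    ((of c)⁻¹ * of a * of c) (of b)
    (by simp only [map_mul, map_inv, Ea, Eb, Ec]; group) (by simp only [Eb])
    (by simp only [map_mul, map_inv, Ea, Eb, Ec]; group) (by simp only [Eb])
  let K12 : MulAut (FreeGroup (Fin n)) := mk hab (of a) (of c * of b * (of c)⁻¹)
    (of a) ((of c)⁻¹ * of b * of c)
    (by simp only [Ea]) (by simp only [map_mul, map_inv, Ea, Eb, Ec]; group)
    (by simp only [Ea]) (by simp only [map_mul, map_inv, Ea, Eb, Ec]; group)
  have hA : Acts a b A (of a * (of b * of c * (of b)⁻¹ * (of c)⁻¹)) (of b) :=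
    mk_acts hab _ _ _ _ _ _ _ _
  have hB : Acts a b B (of a) (of b * (of a * of c * (of a)⁻¹ * (of c)⁻¹)) :=
    mk_acts hab _ _ _ _ _ _ _ _
  have h01 : Acts a b K01 (of b * of a * (of b)⁻¹) (of b) :=
    mk_acts hab _ _ _ _ _ _ _ _
  have h10 : Acts a b K10 (of a) (of a * of b * (of a)⁻¹) :=
    mk_acts hab _ _ _ _ _ _ _ _
  have h02 : Acts a b K02 (of c * of a * (of c)⁻¹) (of b) :=
    mk_acts hab _ _ _ _ _ _ _ _
  have h12 : Acts a b K12 (of a) (of c * of b * (of c)⁻¹) :=
    mk_acts hab _ _ _ _ _ _ _ _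
  -- membership in IA
  have key : ∀ {φ : MulAut (FreeGroup (Fin n))} {g h : FreeGroup (Fin n)}, Acts a b φ g h →
      Abelianization.of g = Abelianization.of (of a) → Abelianization.of h = Abelianization.of (of b) →
      φ ∈ IA n := by
    intro φ g h hφ hg hh
    apply mem_IA
    intro m
    by_cases hma : m = a
    · subst hma; rw [hφ.1, hg]
    · by_cases hmb : m = b
      · subst hmb; rw [hφ.2.1, hh]
      · rw [hφ.2.2 m hma hmb]
  have mA : A ∈ IA n := key hA (by
    simp only [map_mul, map_inv]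
    rw [mul_right_comm (Abelianization.of (of b))]
    simp) rfl
  have mB : B ∈ IA n := key hB rfl (by
    simp only [map_mul, map_inv]
    rw [mul_right_comm (Abelianization.of (of a))]
    simp)
  have m01 : K01 ∈ IA n := key h01 (by simp only [map_mul, map_inv]; rw [mul_right_comm]; simp) rfl
  have m10 : K10 ∈ IA n := key h10 rfl (by simp only [map_mul, map_inv]; rw [mul_right_comm]; simp)
  have m02 : K02 ∈ IA n := key h02 (by simp only [map_mul, map_inv]; rw [mul_right_comm]; simp) rfl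
  have m12 : K12 ∈ IA n := key h12 rfl (by simp only [map_mul, map_inv]; rw [mul_right_comm]; simp)
  -- elements of IA
  let A' : IA n := ⟨A, mA⟩
  let B' : IA n := ⟨B, mB⟩
  let K01' : IA n := ⟨K01, m01⟩
  let K10' : IA n := ⟨K10, m10⟩
  let K02' : IA n := ⟨K02, m02⟩
  let K12' : IA n := ⟨K12, m12⟩
  set N := Subgroup.normalClosure (C n : Set (IA n)) with hN
  have hCN : ∀ φ : IA n, φ ∈ C n → φ ∈ N := fun φ hφ => Subgroup.subset_normalClosure hφ
  have n01 : K01' ∈ N := hCN _ (Subgroup.subset_closure ⟨a, b, hab.symm, h01.1, fun m hm => by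
    by_cases hmb : m = b
    · subst hmb; exact h01.2.1
    · exact h01.2.2 m hm hmb⟩)
  have n10 : K10' ∈ N := hCN _ (Subgroup.subset_closure ⟨b, a, hab, h10.2.1, fun m hm => by
    by_cases hma : m = a
    · subst hma; exact h10.1
    · exact h10.2.2 m hma hm⟩)
  have n02 : K02' ∈ N := hCN _ (Subgroup.subset_closure ⟨a, c, hca.symm, h02.1, fun m hm => by
    by_cases hmb : m = b
    · subst hmb; exact h02.2.1
    · exact h02.2.2 m hm hmb⟩)
  have n12 : K12' ∈ N := hCN _ (Subgroup.subset_closure ⟨b, c, hcb.symm, h12.2.1, fun m hm => by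
    by_cases hma : m = a
    · subst hma; exact h12.1
    · exact h12.2.2 m hma hm⟩)
  have tA : A' ∈ T n := Subgroup.subset_closure ⟨a, b, c, hab.symm, by simp [b, c, Fin.lt_def], hca,
    hA.1, fun m hm => by
    by_cases hmb : m = b
    · subst hmb; exact hA.2.1
    · exact hA.2.2 m hm hmb⟩
  have tB : B' ∈ T n := Subgroup.subset_closure ⟨b, a, c, hab, by simp [a, c, Fin.lt_def], hcb,
    hB.2.1, fun m hm => by
    by_cases hma : m = a
    · subst hma; exact hB.1
    · exact hB.2.2 m hma hm⟩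
  -- the quotient map
  let π : IA n →* IA n ⧸ N := QuotientGroup.mk' N
  have hπ : ∀ φ : IA n, φ ∈ N → π φ = 1 := fun φ hφ => (QuotientGroup.eq_one_iff φ).mpr hφ
  obtain ⟨u, R, P, Q, S, hu, hR, hP, hQ, hS, hcomm⟩ := core A B K01 K10 K02 K12 hab hca hcb hA hB h01 h10 h02 h12
  let u' : IA n := K10' * K12' * B'⁻¹ * K10'⁻¹ * A' * K02'⁻¹
  let R' : IA n := K10' * B' * K12'⁻¹ * K10'⁻¹ * K02' * A'⁻¹
  let P' : IA n := K12' * K02' * A' * K02'⁻¹
  let Q' : IA n := K10' * K01'
  let S' : IA n := P'⁻¹ * Q' * P' * Q'⁻¹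
  have hcomm' : (u' * S') * R' = R' * (u' * S') := by
    apply Subtype.ext
    have e1 : (((u' * S') * R' : IA n) : MulAut (FreeGroup (Fin n))) = (u * S) * R := by
      rw [hS, hP, hQ, hu, hR]; rfl
    have e2 : ((R' * (u' * S') : IA n) : MulAut (FreeGroup (Fin n))) = R * (u * S) := by
      rw [hS, hP, hQ, hu, hR]; rfl
    rw [e1, e2, hcomm]
  have hπc := congrArg π hcomm'
  have πu : π u' = (π B')⁻¹ * π A' := by
    simp only [u', map_mul, map_inv, hπ _ n10, hπ _ n12, hπ _ n02]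
    group
  have πR : π R' = π B' * (π A')⁻¹ := by
    simp only [R', map_mul, map_inv, hπ _ n10, hπ _ n12, hπ _ n02]
    group
  have πQ : π Q' = 1 := by
    simp only [Q', map_mul, hπ _ n10, hπ _ n01, mul_one]
  have πS : π S' = 1 := by
    simp only [S', map_mul, map_inv, πQ]
    group
  rw [map_mul π (u' * S') R', map_mul π R' (u' * S'), map_mul π u' S', πS, mul_one, πu, πR] at hπc
  -- the element
  let ξ : IA n := (B'⁻¹ * A') * (B' * A'⁻¹) * (B'⁻¹ * A')⁻¹ * (B' * A'⁻¹)⁻¹
  have hξN : ξ ∈ N := by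
    have h1 : π ξ = 1 := by
      simp only [ξ, map_mul, map_inv]
      rw [hπc]
      group
    exact (QuotientGroup.eq_one_iff ξ).mp h1
  have hξT : ξ ∈ T n := by
    have t1 : B'⁻¹ * A' ∈ T n := Subgroup.mul_mem _ (Subgroup.inv_mem _ tB) tA
    have t2 : B' * A'⁻¹ ∈ T n := Subgroup.mul_mem _ tB (Subgroup.inv_mem _ tA)
    exact Subgroup.mul_mem _ (Subgroup.mul_mem _ (Subgroup.mul_mem _ t1 t2) (Subgroup.inv_mem _ t1))
      (Subgroup.inv_mem _ t2)
  have hξ1 : ξ ≠ 1 := by
    intro hcon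
    exact nontriv hab hca hcb hA hB (congrArg Subtype.val hcon)
  intro hbot
  have : ξ ∈ N ⊓ T n := ⟨hξN, hξT⟩
  rw [hbot] at this
  exact hξ1 (Subgroup.mem_bot.mp this)

end Pool.Agent.Results.MP_0edd48_al.IntersectionNontrivial
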